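import Pool.Agent.X65.Loc.Width

/-!
# The minimal balance constants `δ_w` are determined by small posets

`δ_w` is the infimum of the balance constants of the finite posets of width `w` (`dAll w`), and
`δ_{w,N}` (`dAllN w N`) the infimum over the posets of width `w` with at most `N` elements.

(1) For every `w ≥ 1` there is an integer `C` such that for every `0 < ε ≤ 1` every finite poset `P` of
width `w` has a companion `Q` of the same width `w` with at most `C (1/ε) ^ C` elements and balance
constant at most `δ(P) + ε`.

(2) So `δ_w ≤ δ_{w,N} ≤ δ_w + (C/N) ^ (1/C)` for `N ≥ C`: the numbers `δ_w` are computable, with posets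
of size polynomial in `1/ε`.

(3) For all `u, v` (with `C` depending on an upper bound `W` for `u` and `v`): `δ_u < δ_v` if and only
if `δ_{u,N} + (C/N) ^ (1/C) < δ_{v,N}` for some `N ≥ C`. In particular each of the inequalities
`δ_w < δ_{w+1}` of the problem, if true, can be verified by a finite computation (given `C`).

Proof: if `δ(P)` is close to `1/2`, one takes the posets of the starting result `BalanceUpperBound`.
Otherwise `P` is thin by the result on elements with many incomparable elements (starting result
`ManyIncomparable` of `MP_33fb9b_co`), and the order probabilities are local: they depend on the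
structure at distance `L = O(log(1/ε))` only up to `ε` (our `FiniteReduction` of `MP_33fb9b_co`).
Enumerate `P` by a linear extension and remove the parts between equal windows of length `L`, without
touching one window which contains an antichain of size `w`. All windows of the result are windows of
`P`, so that the width is still `w` and the balance constant grows by at most `ε`.
-/

set_option autoImplicit false

namespace Pool.Agent.Results.MP_c890a7_co.ComputableWidths

open Pool.Agent.H13R3.WB Pool.Agent.X65.Loc
open Pool.Agent.H931R3.Bal (HasWidth)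
open Pool.Agent.TH447.KL (dAll)

theorem result :
    -- (1) small posets of the same width
    (∀ w : ℕ, 1 ≤ w → ∃ C : ℕ, 1 ≤ C ∧ ∀ ε : ℝ, 0 < ε → ε ≤ 1 →
      ∀ (P : Type) [Fintype P] [PartialOrder P], HasWidth P w →
        ∃ (Q : Type) (_ : Fintype Q) (_ : PartialOrder Q), HasWidth Q w ∧
          (Fintype.card Q : ℝ) ≤ C * (1 / ε) ^ C ∧ balance Q ≤ balance P + ε) ∧
    (∀ W : ℕ, ∃ C : ℕ, 1 ≤ C ∧
      -- (2) approximation of the infimum
      (∀ w : ℕ, 1 ≤ w → w ≤ W → ∀ N : ℕ, C ≤ N →
        dAll w ≤ dAllN w N ∧ dAllN w N ≤ dAll w + ((C : ℝ) / N) ^ (1 / (C : ℝ))) ∧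
      -- (3) strict inequalities are finite verifications
      (∀ u v : ℕ, 1 ≤ u → u ≤ W → 1 ≤ v → v ≤ W →
        (dAll u < dAll v ↔
          ∃ N : ℕ, C ≤ N ∧ dAllN u N + ((C : ℝ) / N) ^ (1 / (C : ℝ)) < dAllN v N))) := by
  refine ⟨fun w hw => ?_, approx_widths⟩
  obtain ⟨C, h1, h2⟩ := reduction_width w hw
  exact ⟨C, by omega, h2⟩

end Pool.Agent.Results.MP_c890a7_co.ComputableWidths
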