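import Pool.Agent.X11.DS.Attain

/-!
# Balance constants of posets whose incomparability graphs have components of bounded diameter

Let `DiamLe d P` say that the connected components of the incomparability graph of `P` have
diameter at most `d`.  This class contains all posets whose incomparability graph has no induced
path on `d + 2` vertices, and for `d = 2` all series-parallel posets.

* For every `d` and every `c < 1 / 2` only finitely many real numbers `v ≤ c` are balance constants
  of posets of this class.  More precisely, if the balance constant is less than `1/2 - ε`, then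
  `P` is a direct sum of posets with at most `K(ε) ^ d` elements (the components).  In contrast, the
  balance constants of all posets of width two accumulate at `0.3488...`.
* Hence the least balance constant `dDiam d w` of the posets of width `w` of this class is attained,
  by a poset of explicitly bounded size, and it is rational; the same holds for series-parallel
  posets.  So for these classes each of the inequalities `δ_w < δ_(w+1)` of the problem is decided
  by finitely many posets.
* The number `δ_w` of the problem is the limit of the decreasing sequence `dDiam d w`.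

Proof.  By the starting result `incomparable_balance`, a poset with balance constant less than
`1/2 - ε` has fewer than `K(ε)` elements incomparable to any given element.  So a component of the
incomparability graph has at most `K(ε) ^ d` elements.  Components are autonomous, and incomparable
elements are in the same component; so the balance constant is a fraction with denominator at most
`(K(ε) ^ d)!`.
-/

set_option autoImplicit false

namespace Pool.Agent.Results.MP_c890a7_co.DiscreteSpectrum

open Pool.Agent.H13R3.WB Pool.Agent.H931R3.Bal Pool.Agent.X11.DS

theorem result :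
    -- finitely many balance constants below any `c < 1 / 2`
    (∀ (d : ℕ) (c : ℝ), c < 1 / 2 → {v : ℝ | v ≤ c ∧ ∃ (P : Type) (_ : Fintype P)
      (_ : PartialOrder P), DiamLe d P ∧ balance P = v}.Finite) ∧
    -- series-parallel posets and posets without long induced paths
    (∀ (P : Type) [PartialOrder P], SeriesParallel P → DiamLe 2 P) ∧
    (∀ (d : ℕ) (P : Type) [PartialOrder P], NoInducedPath (d + 2) P → DiamLe d P) ∧
    (∃ B : ℝ, 0 < B ∧
      -- the components are small
      (∀ ε : ℝ, 0 < ε → ε ≤ 1 / 2 → ∀ (d : ℕ) (P : Type) [Fintype P] [PartialOrder P],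
        DiamLe d P → balance P < 1 / 2 - ε → ∀ x : P,
        Nat.card {y : P // Relation.ReflTransGen Inc x y} ≤
          ⌈Real.exp (B * Real.log (2 / ε) ^ 3 / ε ^ 4)⌉₊ ^ d) ∧
      -- the least balance constants of given width are attained by small posets
      (∀ w : ℕ, 1 ≤ w →
        (∀ d : ℕ, 2 ≤ d → ∃ (P : Type) (_ : Fintype P) (_ : PartialOrder P), DiamLe d P ∧
          HasWidth P w ∧ balance P = dDiam d w ∧ Fintype.card P ≤
            ⌈Real.exp (B * Real.log (24 * w - 14) ^ 3 * (12 * w - 7) ^ 4)⌉₊ ^ d) ∧
        (∃ (P : Type) (_ : Fintype P) (_ : PartialOrder P), SeriesParallel P ∧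
          HasWidth P w ∧ balance P = dSP w ∧ Fintype.card P ≤
            ⌈Real.exp (B * Real.log (24 * w - 14) ^ 3 * (12 * w - 7) ^ 4)⌉₊ ^ 2))) ∧
    -- rational numbers which decrease to the number `δ_w` of the problem
    (∀ w : ℕ, 1 ≤ w →
      (∀ d : ℕ, 2 ≤ d → dAll w ≤ dDiam (d + 1) w ∧ dDiam (d + 1) w ≤ dDiam d w ∧
        ∃ q : ℚ, (q : ℝ) = dDiam d w) ∧
      Filter.Tendsto (fun d => dDiam d w) Filter.atTop (nhds (dAll w))) ∧
    -- each value is taken by finitely many widths
    (∀ (d : ℕ) (c : ℝ), 2 ≤ d → c < 1 / 2 → {w : ℕ | dDiam d w ≤ c}.Finite) := by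
  refine ⟨finite_spectrum, fun P _ h => (sp_diam h).2, fun d P _ h => diamLe_of_noInducedPath h,
    ?_, fun w hw => ⟨fun d hd => ⟨dAll_le_dDiam (by omega) hw,
      dDiam_anti hd (Nat.le_succ d) hw, least_rat (cls_diam hd) hw⟩, tendsto_dDiam hw⟩,
    fun d c hd hc => finite_widths (cls_diam hd) hc⟩
  obtain ⟨B, hB, h⟩ := exists_thin
  refine ⟨B, hB, ?_, fun w hw => ⟨fun d hd => least_explicit (cls_diam hd) h hw,
    least_explicit cls_sp h hw⟩⟩
  intro ε h1 h2 d P _ _ hd hP x
  classical
  have h3 := card_comp (h ε h1 h2) hd hP x
  rw [← Nat.card_eq_fintype_card] at h3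
  exact h3

end Pool.Agent.Results.MP_c890a7_co.DiscreteSpectrum
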