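import Pool.Agent.X211.SPG.G10

/-!
# The second gap in the balance constants of series-parallel posets

A series-parallel poset is a direct sum of copies of the one-element poset, the three-element
poset with one relation and the seven-element poset `X7`, or its balance constant is at least
`2/5`.  So `dSP w ≥ 2/5 > 8/21 = dSP 3` for every `w ≥ 4`, the first three inequalities
`δ_1 < δ_2 < δ_3 < δ_4` of the problem hold for series-parallel posets, and the balance constants
up to `2/5` are exactly `0`, `1/3`, `8/21` and `2/5`.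
-/

namespace Pool.Agent.Results.MP_c890a7_co.SeriesParallelSecondGap

open Pool.Agent.H13R3.WB Pool.Agent.H931R3.Bal Pool.Agent.X211.SPG

theorem result :
    (dSP 1 < dSP 2 ∧ dSP 2 < dSP 3 ∧ dSP 3 < dSP 4) ∧
    (∀ w : ℕ, 4 ≤ w → dSP 3 < 2 / 5 ∧ 2 / 5 ≤ dSP w) ∧
    (∀ (P : Type) [Fintype P] [PartialOrder P], SeriesParallel P →
      InD2 P ∨ 2 / 5 ≤ balance P) ∧
    {d : ℝ | d ≤ 2 / 5 ∧ ∃ (P : Type) (_ : Fintype P) (_ : PartialOrder P),
      SeriesParallel P ∧ balance P = d} = {0, 1 / 3, 8 / 21, 2 / 5} ∧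
    (∀ c : ℝ, c ≤ 2 / 5 →
      (∀ (P : Type) [Fintype P] [PartialOrder P] [Nonempty P], Irreducible2 P →
        InD2 P ∨ c ≤ balance P) →
      (∀ (P : Type) [Fintype P] [PartialOrder P] [Nonempty P], InD2 P ∨ c ≤ balance P) ∧
      ∀ w : ℕ, 4 ≤ w → ∀ (P : Type) [Fintype P] [PartialOrder P], HasWidth P w →
        c ≤ balance P) := by
  refine ⟨⟨?_, ?_, ?_⟩, ?_, ?_, spectrum, ?_⟩
  · rw [dSP_one, dSP_two]; norm_num
  · rw [dSP_two, dSP_three]; norm_num
  · have := dSP_ge_four (w := 4) le_rfl
    rw [dSP_three]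
    linarith
  · intro w hw
    rw [dSP_three]
    exact ⟨by norm_num, dSP_ge_four hw⟩
  · intro P _ _ h
    exact (sp_gap2 h).2
  · intro c hc h
    have hall := fun (P : Type) [Fintype P] [PartialOrder P] [Nonempty P] => reduction2 hc h P
    refine ⟨hall, ?_⟩
    intro w hw P _ _ hP
    obtain ⟨s, hs, hcard⟩ := hP.1
    have hne : Nonempty P := by
      obtain ⟨x, _⟩ := Finset.card_pos.1 (show 0 < s.card by omega)
      exact ⟨x⟩
    rcases hall P with h3 | h3
    · have := h3.width_le hP
      omega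
    · exact h3

end Pool.Agent.Results.MP_c890a7_co.SeriesParallelSecondGap
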